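import Mathlib
import Pool.Agent.Q76.UniversalCantor

/-!
# A single Cantor partner for all tree distance sets (MP_d100af_an)

There is one Cantor set `K'` of Hausdorff dimension zero such that for every infinite set `K`
(in particular every Cantor set) and every finite tree `T` the tree distance set of `K × K'` has
nonempty interior.
-/

namespace Pool.Agent.Results.MP_d100af_an.UniversalPartner

open Set Metric Topology
open Q76.UniversalCantor (IsCantor)

/-- The product `K × K'` as a subset of the Euclidean plane. -/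
def prodSet (K K' : Set ℝ) : Set (EuclideanSpace ℝ (Fin 2)) := {p | p 0 ∈ K ∧ p 1 ∈ K'}

/-- The tree distance set of `X` for the tree `T` on the vertex set `Fin n`: all edge-indexed
vectors `(|y^v - y^w|)_{v ∼ w}` with pairwise distinct points `y^v ∈ X`. -/
def treeDistanceSet {n : ℕ} (T : SimpleGraph (Fin n)) (X : Set (EuclideanSpace ℝ (Fin 2))) :
    Set (T.edgeSet → ℝ) :=
  {d | ∃ y : Fin n → EuclideanSpace ℝ (Fin 2), Function.Injective y ∧ (∀ v, y v ∈ X) ∧
    ∀ (v w : Fin n) (h : T.Adj v w), d ⟨s(v, w), h⟩ = dist (y v) (y w)}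

/-- Every small edge function of a finite tree is the absolute difference of a small vertex
function. -/
lemma exists_potential {n : ℕ} {T : SimpleGraph (Fin n)} (hT : T.IsTree) {δ : ℝ} (hδ : 0 < δ) :
    ∃ η > (0 : ℝ), ∀ c : T.edgeSet → ℝ, (∀ e, |c e| < η) →
      ∃ h : Fin n → ℝ, (∀ v, |h v| < δ) ∧
        ∀ (v w : Fin n) (hvw : T.Adj v w), (h v - h w) ^ 2 = c ⟨s(v, w), hvw⟩ ^ 2 := by
  classical
  have hends : ∀ e : T.edgeSet, ∃ v w : Fin n, e.1 = s(v, w) ∧ T.Adj v w := by
    rintro ⟨e, he⟩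
    induction e using Sym2.ind with
    | _ v w => exact ⟨v, w, rfl, he⟩
  choose src tgt hst hadj using hends
  let D : (Fin n → ℝ) →ₗ[ℝ] (T.edgeSet → ℝ) :=
    LinearMap.pi fun e => (LinearMap.proj (src e) : (Fin n → ℝ) →ₗ[ℝ] ℝ) - LinearMap.proj (tgt e)
  have hD : ∀ h e, D h e = h (src e) - h (tgt e) := fun h e => rfl
  have hsq : ∀ (h : Fin n → ℝ) (v w : Fin n) (hvw : T.Adj v w),
      (h v - h w) ^ 2 = (D h ⟨s(v, w), hvw⟩) ^ 2 := by
    intro h v w hvw
    rw [hD]
    have h1 := hst ⟨s(v, w), hvw⟩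
    rcases Sym2.eq_iff.mp h1 with ⟨h2, h3⟩ | ⟨h2, h3⟩
    · rw [← h2, ← h3]
    · rw [← h2, ← h3]; ring
  -- kernel
  have hker : LinearMap.ker D ≤ Submodule.span ℝ {(fun _ => 1 : Fin n → ℝ)} := by
    intro h hh
    rw [LinearMap.mem_ker] at hh
    have hconst : ∀ v w, T.Adj v w → h v = h w := by
      intro v w hvw
      have := hsq h v w hvw
      rw [hh] at this
      simp only [Pi.zero_apply, ne_eq, OfNat.ofNat_ne_zero, not_false_eq_true, zero_pow,
        pow_eq_zero_iff] at this
      linarith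
    have hreach : ∀ v w, h v = h w := by
      intro v w
      obtain ⟨p⟩ := hT.connected.preconnected v w
      induction p with
      | nil => rfl
      | cons hab _ ih => exact (hconst _ _ hab).trans ih
    obtain ⟨v₀⟩ := hT.connected.nonempty
    rw [Submodule.mem_span_singleton]
    refine ⟨h v₀, ?_⟩
    funext v
    simp [hreach v v₀]
  have hsurj : Function.Surjective D := by
    rw [← LinearMap.range_eq_top]
    apply Submodule.eq_top_of_finrank_eq
    have h1 := LinearMap.finrank_range_add_finrank_ker D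
    have h2 : Module.finrank ℝ (LinearMap.ker D) ≤ 1 := by
      refine (Submodule.finrank_mono hker).trans ?_
      have := finrank_span_le_card (R := ℝ) ({(fun _ => 1 : Fin n → ℝ)} : Set (Fin n → ℝ))
      simpa using this
    have h3 : Fintype.card T.edgeSet + 1 = n := by
      have := hT.card_edgeFinset
      rw [SimpleGraph.edgeFinset_card, Fintype.card_fin] at this
      exact this
    have h4 : Module.finrank ℝ (LinearMap.range D) ≤ Fintype.card T.edgeSet := by
      have := Submodule.finrank_le (LinearMap.range D)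
      rwa [Module.finrank_fintype_fun_eq_card] at this
    rw [Module.finrank_fintype_fun_eq_card] at h1 ⊢
    rw [Fintype.card_fin] at h1
    omega
  have hopen : IsOpenMap D := D.isOpenMap_of_finiteDimensional hsurj
  have hU : IsOpen (D '' ball 0 δ) := hopen _ isOpen_ball
  have h0 : (0 : T.edgeSet → ℝ) ∈ D '' ball 0 δ := ⟨0, mem_ball_self hδ, map_zero D⟩
  obtain ⟨η, hη, hsub⟩ := Metric.isOpen_iff.mp hU 0 h0
  refine ⟨η, hη, fun c hc => ?_⟩
  have hcmem : c ∈ ball (0 : T.edgeSet → ℝ) η := by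
    rw [mem_ball_zero_iff, pi_norm_lt_iff hη]
    exact hc
  obtain ⟨h, hh, hhc⟩ := hsub hcmem
  refine ⟨h, ?_, fun v w hvw => ?_⟩
  · rw [mem_ball_zero_iff, pi_norm_lt_iff hδ] at hh
    exact hh
  · rw [hsq h v w hvw, hhc]

/-- **A universal Cantor partner of Hausdorff dimension zero.** -/
theorem result : ∃ K' : Set ℝ, IsCantor K' ∧ dimH K' = 0 ∧
    ∀ K : Set ℝ, K.Infinite → ∀ (n : ℕ) (T : SimpleGraph (Fin n)), T.IsTree →
      (interior (treeDistanceSet T (prodSet K K'))).Nonempty := by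
  classical
  obtain ⟨K', hK', hdim, hpat⟩ := Q76.UniversalCantor.exists_universal_cantor
  refine ⟨K', hK', hdim, fun K hK n T hT => ?_⟩
  obtain ⟨δ, hδ, hpat⟩ := hpat n
  obtain ⟨η, hη, hpot⟩ := exists_potential hT (half_pos hδ)
  -- distinct abscissae
  let x : Fin n → ℝ := fun v => (hK.natEmbedding K v : ℝ)
  have hxK : ∀ v, x v ∈ K := fun v => (hK.natEmbedding K v).2
  have hxinj : Function.Injective x := by
    intro v w hvw
    have h1 : hK.natEmbedding K v = hK.natEmbedding K w := Subtype.ext hvw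
    exact Fin.ext ((hK.natEmbedding K).injective h1)
  let a : T.edgeSet → ℝ := fun e =>
    Sym2.lift ⟨fun v w => |x v - x w|, fun v w => abs_sub_comm _ _⟩ e.1
  have ha : ∀ (v w : Fin n) (h : T.Adj v w), a ⟨s(v, w), h⟩ = |x v - x w| := fun v w h => rfl
  have ha0 : ∀ e, 0 ≤ a e := by
    rintro ⟨e, he⟩
    induction e using Sym2.ind with
    | _ v w => exact abs_nonneg _
  let O : Set (T.edgeSet → ℝ) := Set.pi univ fun e => Ioo (a e) (√(a e ^ 2 + η ^ 2))
  have hO : IsOpen O := isOpen_set_pi finite_univ fun e _ => isOpen_Ioo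
  have hOne : O.Nonempty := by
    rw [univ_pi_nonempty_iff]
    intro e
    rw [nonempty_Ioo]
    apply Real.lt_sqrt_of_sq_lt
    nlinarith
  refine hOne.mono (interior_maximal ?_ hO)
  intro d hd
  have hd' : ∀ e, a e < d e ∧ d e < √(a e ^ 2 + η ^ 2) := fun e => hd e (mem_univ e)
  obtain ⟨h, hh, hdiff⟩ := hpot (fun e => √(d e ^ 2 - a e ^ 2)) (by
    intro e
    have h1 := hd' e
    rw [abs_of_nonneg (Real.sqrt_nonneg _), Real.sqrt_lt' hη]
    have h2 := (Real.lt_sqrt (by linarith [ha0 e])).mp h1.2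
    linarith)
  obtain ⟨t, ht⟩ := hpat (fun v => h v + δ / 2) (by
    intro v
    have := abs_lt.mp (hh v)
    constructor <;> linarith [this.1, this.2])
  refine ⟨fun v => !₂[x v, t + (h v + δ / 2)], ?_, ?_, ?_⟩
  · intro v w hvw
    apply hxinj
    have := congrFun (congrArg (fun p : EuclideanSpace ℝ (Fin 2) => (p : Fin 2 → ℝ)) hvw) 0
    simpa using this
  · intro v
    exact ⟨by simpa using hxK v, by simpa using ht v⟩
  · intro v w hvw
    have h1 := hd' ⟨s(v, w), hvw⟩
    have h2 := hdiff v w hvw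
    have ha1 := ha0 ⟨s(v, w), hvw⟩
    have hpos : 0 < d ⟨s(v, w), hvw⟩ := by linarith
    rw [Real.sq_sqrt (by nlinarith), ha] at h2
    rw [EuclideanSpace.dist_eq]
    simp only [Fin.sum_univ_two]
    have e1 : dist ((!₂[x v, t + (h v + δ / 2)] : EuclideanSpace ℝ (Fin 2)) 0)
        ((!₂[x w, t + (h w + δ / 2)] : EuclideanSpace ℝ (Fin 2)) 0) ^ 2 = |x v - x w| ^ 2 := by
      simp [Real.dist_eq]
    have e2 : dist ((!₂[x v, t + (h v + δ / 2)] : EuclideanSpace ℝ (Fin 2)) 1)
        ((!₂[x w, t + (h w + δ / 2)] : EuclideanSpace ℝ (Fin 2)) 1) ^ 2 = (h v - h w) ^ 2 := by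
      simp only [Real.dist_eq, sq_abs]
      simp
    rw [e1, e2, h2]
    rw [add_sub_cancel, Real.sqrt_sq hpos.le]

end Pool.Agent.Results.MP_d100af_an.UniversalPartner
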